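import Pool.Agent.Y6.S.Stm
import Pool.Agent.Y108.NS.Resc

/-!
Rescaling of the reduced system `SuR` (task SK-RESC of the project of helper6), adapted from
`Pool/Agent/Y941/EP/Resc5.lean`.
-/

open Set Filter Topology MeasureTheory

set_option autoImplicit false

namespace Pool.Agent.Y941.SK

open Pool.Agent.Y5.D Pool.Agent.Y5.E Pool.Agent.Y5.F Pool.Agent.Y8.EP Pool.Agent.Y108.NS
open Pool.Agent.Y6.S
open Pool.Agent.Y5.S2 (Sq6)

/-! ### Decay -/

section decay

variable {lam : ℝ} {L : ℕ → ℝ} (hl : 2 ≤ lam) (hL0 : 1 ≤ L 0) (hLs : ∀ n, L (n + 1) = lam * L n)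
include hl hL0 hLs

lemma L_two (n : ℕ) : (2 : ℝ) ^ n ≤ L n := by
  induction n with
  | zero => simpa using hL0
  | succ n ih =>
    rw [hLs, pow_succ, mul_comm]
    exact mul_le_mul hl ih (by positivity) (by linarith)

lemma L_one (n : ℕ) : 1 ≤ L n := le_trans (one_le_pow₀ one_le_two) (L_two hl hL0 hLs n)

lemma L_nat (n : ℕ) : (n : ℝ) ≤ L n := by
  refine le_trans ?_ (L_two hl hL0 hLs n)
  exact_mod_cast Nat.lt_two_pow_self.le

omit hl hL0 in
lemma L_add (n k : ℕ) : L (n + k) = lam ^ k * L n := by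
  induction k with
  | zero => simp
  | succ k ih => rw [← add_assoc, hLs, ih, pow_succ]; ring

lemma sqYk_le {κ : ℝ} (hκ : 0 < κ) (hκ1 : κ ≤ 1) {x w : ℕ → ℝ → ℝ} {t M : ℝ} {j : ℕ} (hj : 1 ≤ j)
    (hw : ∀ n, 0 ≤ w n t) (hM : ∀ n, L n ^ j * (|x n t| + w n t) ≤ M) (n : ℕ) :
    √(Yk κ x w n t) ≤ 2 * M / L n ^ j := by
  have hLp : ∀ n, 0 < L n := fun n => lt_of_lt_of_le one_pos (L_one hl hL0 hLs n)
  have hM0 : 0 ≤ M := by
    refine le_trans ?_ (hM 0)
    have := hw 0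
    have := (hLp 0).le
    positivity
  have hLn := hLp n
  rw [Real.sqrt_le_left (by positivity)]
  unfold Yk
  have hterm : ∀ k, κ ^ (2 * k) * (x (n + k) t ^ 2 + w (n + k) t ^ 2) ≤
      (M / L n ^ j) ^ 2 * (1 / 4) ^ k := by
    intro k
    have hb0 : 0 ≤ |x (n + k) t| + w (n + k) t := add_nonneg (abs_nonneg _) (hw _)
    have h1 : x (n + k) t ^ 2 + w (n + k) t ^ 2 ≤ (|x (n + k) t| + w (n + k) t) ^ 2 := by
      have h := hw (n + k)
      rw [← sq_abs (x (n + k) t)]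
      nlinarith [mul_nonneg (abs_nonneg (x (n + k) t)) h]
    have h2 : |x (n + k) t| + w (n + k) t ≤ M / L n ^ j * (1 / 2) ^ k := by
      have h3 := hM (n + k)
      have h4 : 2 ^ k * L n ≤ L (n + k) := by
        rw [L_add hLs]
        gcongr
      have h5 : 2 ^ k * L n ^ j ≤ L (n + k) ^ j := by
        calc (2 : ℝ) ^ k * L n ^ j ≤ (2 ^ k) ^ j * L n ^ j := by
              gcongr
              exact le_self_pow₀ (one_le_pow₀ one_le_two) (by omega)
          _ = (2 ^ k * L n) ^ j := by rw [mul_pow]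
          _ ≤ _ := pow_le_pow_left₀ (by positivity) h4 j
      have h6 : 2 ^ k * L n ^ j * (|x (n + k) t| + w (n + k) t) ≤ M :=
        (mul_le_mul_of_nonneg_right h5 hb0).trans h3
      have e : M / L n ^ j * (1 / 2) ^ k = M / (2 ^ k * L n ^ j) := by
        rw [one_div, inv_pow]
        field_simp
      rw [e, le_div_iff₀ (by positivity)]
      linarith
    calc κ ^ (2 * k) * (x (n + k) t ^ 2 + w (n + k) t ^ 2) ≤
        1 * (x (n + k) t ^ 2 + w (n + k) t ^ 2) := by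
          gcongr
          exact pow_le_one₀ hκ.le hκ1
      _ ≤ (|x (n + k) t| + w (n + k) t) ^ 2 := by rw [one_mul]; exact h1
      _ ≤ (M / L n ^ j * (1 / 2) ^ k) ^ 2 := pow_le_pow_left₀ hb0 h2 2
      _ = _ := by
          rw [mul_pow, ← pow_mul, mul_comm k 2, pow_mul]
          norm_num
  have hsum : Summable (fun k : ℕ => (M / L n ^ j) ^ 2 * (1 / 4 : ℝ) ^ k) :=
    (summable_geometric_of_lt_one (by norm_num) (by norm_num)).mul_left _
  have hsum1 : Summable (fun k : ℕ => κ ^ (2 * k) * (x (n + k) t ^ 2 + w (n + k) t ^ 2)) :=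
    Summable.of_nonneg_of_le (fun k => by positivity) hterm hsum
  calc ∑' k : ℕ, κ ^ (2 * k) * (x (n + k) t ^ 2 + w (n + k) t ^ 2)
      ≤ ∑' k : ℕ, (M / L n ^ j) ^ 2 * (1 / 4 : ℝ) ^ k := hsum1.tsum_le_tsum hterm hsum
    _ = (M / L n ^ j) ^ 2 * (4 / 3) := by
        rw [tsum_mul_left, tsum_geometric_of_lt_one (by norm_num) (by norm_num)]
        norm_num
    _ ≤ (2 * M / L n ^ j) ^ 2 := by
        rw [mul_div_assoc, mul_pow 2]
        nlinarith [sq_nonneg (M / L n ^ j)]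

lemma Zp_le {b : ℕ → ℝ} {M : ℝ} {j : ℕ} (hM0 : 0 ≤ M)
    (hM : ∀ n, L n ^ j * b n ≤ M) (n : ℕ) :
    Zp b n ≤ 2 * (lam ^ 2) ^ j * M / L n ^ j := by
  have hLp : ∀ n, 0 < L n := fun n => lt_of_lt_of_le one_pos (L_one hl hL0 hLs n)
  have hb : ∀ i k, k ≤ 2 → b i ≤ (lam ^ 2) ^ j * M / L (i + k) ^ j := by
    intro i k hk
    have h1 := hM i
    have h2 := hLp i
    have h3 := hLp (i + k)
    rw [le_div_iff₀ (by positivity), L_add hLs, mul_pow]
    have h4 : (lam ^ k) ^ j ≤ (lam ^ 2) ^ j :=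
      pow_le_pow_left₀ (by positivity) (pow_le_pow_right₀ (by linarith) hk) j
    calc b i * ((lam ^ k) ^ j * L i ^ j) = (lam ^ k) ^ j * (L i ^ j * b i) := by ring
      _ ≤ (lam ^ k) ^ j * M := by gcongr
      _ ≤ _ := by gcongr
  have hp : 0 ≤ (lam ^ 2) ^ j * M / L n ^ j := by
    have := hLp n
    positivity
  unfold Zp
  have e : 2 * (lam ^ 2) ^ j * M / L n ^ j =
      (lam ^ 2) ^ j * M / L n ^ j + (lam ^ 2) ^ j * M / L n ^ j := by ring
  rw [e]
  apply add_le_add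
  · split_ifs with h
    · exact hp
    · have h1 := hb (n - 1) 1 (by norm_num)
      rwa [show n - 1 + 1 = n by omega] at h1
  · split_ifs with h
    · exact hp
    · have h1 := hb (n - 2) 2 le_rfl
      rwa [show n - 2 + 2 = n by omega] at h1

omit hL0 hLs in
lemma At_le {x w : ℕ → ℝ → ℝ} {t M : ℝ} (hw : ∀ n, 0 ≤ w n t)
    (hM : ∀ n, |x n t| + w n t ≤ M) (n : ℕ) : At lam x w n t ≤ n * M := by
  unfold At
  have h1 : (√lam)⁻¹ ≤ 1 := by
    apply inv_le_one_of_one_le₀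
    rw [Real.one_le_sqrt]
    linarith
  calc ∑ p ∈ Finset.range n, (√lam)⁻¹ ^ (n - 1 - p) * (|x p t| + w p t)
      ≤ ∑ p ∈ Finset.range n, M := by
        refine Finset.sum_le_sum fun p _ => ?_
        have h2 : 0 ≤ |x p t| + w p t := add_nonneg (abs_nonneg _) (hw p)
        have h3 : (√lam)⁻¹ ^ (n - 1 - p) ≤ 1 := pow_le_one₀ (by positivity) h1
        exact (mul_le_of_le_one_left h2 h3).trans (hM p)
    _ = n * M := by rw [Finset.sum_const, Finset.card_range, nsmul_eq_mul]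

lemma Tk_sum {κ : ℝ} (hκ : 0 < κ) (hκ1 : κ ≤ 1) {x w : ℕ → ℝ → ℝ} {t : ℝ}
    (hw : ∀ n, 0 ≤ w n t) (hM : ∀ j : ℕ, ∃ M, ∀ n, L n ^ j * (|x n t| + w n t) ≤ M) (m : ℕ) :
    Summable (fun k : ℕ => κ ^ (2 * k) * Tk κ lam L x w (m + k) t ^ 2) := by
  have hLp : ∀ n, 0 < L n := fun n => lt_of_lt_of_le one_pos (L_one hl hL0 hLs n)
  obtain ⟨M0, hM0⟩ := hM 0
  obtain ⟨M3, hM3⟩ := hM 3
  have hb0 : ∀ n, 0 ≤ |x n t| + w n t := fun n => add_nonneg (abs_nonneg _) (hw n)
  have hM00 : 0 ≤ M0 := le_trans (mul_nonneg (by positivity) (hb0 0)) (hM0 0)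
  have hM30 : 0 ≤ M3 := le_trans (mul_nonneg (pow_nonneg (hLp 0).le 3) (hb0 0)) (hM3 0)
  set K1 : ℝ := 1 + M0 + 2 * M3 with hK1
  set K3 : ℝ := 2 * M3 + 2 * (lam ^ 2) ^ 3 * M3 with hK3
  have hT : ∀ n, Tk κ lam L x w n t ≤ K1 * K3 * (1 / 2) ^ n := by
    intro n
    have hLn := hLp n
    have hL1 := L_one hl hL0 hLs n
    have a1 : At lam x w n t ≤ n * M0 := At_le hl hw (fun n => by
      have := hM0 n
      rwa [pow_zero, one_mul] at this) n
    have a2 : √(Yk κ x w n t) ≤ 2 * M3 / L n ^ 3 := sqYk_le hl hL0 hLs hκ hκ1 (by norm_num) hw hM3 n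
    have a3 : Zp (fun p => |x p t| + w p t) n ≤ 2 * (lam ^ 2) ^ 3 * M3 / L n ^ 3 :=
      Zp_le hl hL0 hLs hM30 hM3 n
    have a4 : 1 + At lam x w n t + √(Yk κ x w n t) ≤ K1 * L n := by
      have b1 : (n : ℝ) * M0 ≤ L n * M0 := by
        have := L_nat hl hL0 hLs n
        gcongr
      have b2 : 2 * M3 / L n ^ 3 ≤ 2 * M3 := div_le_self (by positivity) (one_le_pow₀ hL1)
      have b3 : 2 * M3 ≤ 2 * M3 * L n := le_mul_of_one_le_right (by positivity) hL1
      rw [hK1]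
      linarith
    have a5 : √(Yk κ x w n t) + Zp (fun p => |x p t| + w p t) n ≤ K3 / L n ^ 3 := by
      rw [hK3, add_div]
      exact add_le_add a2 a3
    have a6 : 0 ≤ 1 + At lam x w n t + √(Yk κ x w n t) := by
      have : 0 ≤ At lam x w n t := Finset.sum_nonneg fun p _ => mul_nonneg (by positivity) (hb0 p)
      positivity
    have a7 : 0 ≤ K3 / L n ^ 3 := by positivity
    unfold Tk
    calc L n * (1 + At lam x w n t + √(Yk κ x w n t)) *
          (√(Yk κ x w n t) + Zp (fun p => |x p t| + w p t) n)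
        ≤ L n * (1 + At lam x w n t + √(Yk κ x w n t)) * (K3 / L n ^ 3) := by gcongr
      _ ≤ L n * (K1 * L n) * (K3 / L n ^ 3) := by gcongr
      _ = K1 * K3 * (1 / L n) := by field_simp
      _ ≤ K1 * K3 * (1 / 2 ^ n) := by
          have := L_two hl hL0 hLs n
          gcongr
      _ = _ := by rw [one_div_pow]
  have hT0 : ∀ n, 0 ≤ Tk κ lam L x w n t := by
    intro n
    have h1 : 0 ≤ At lam x w n t := Finset.sum_nonneg fun p _ => mul_nonneg (by positivity) (hb0 p)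
    have h2 : 0 ≤ Zp (fun p => |x p t| + w p t) n := by
      unfold Zp
      have h3 := hb0 (n - 1)
      have h4 := hb0 (n - 2)
      split_ifs <;> positivity
    have h3 := (hLp n).le
    unfold Tk
    positivity
  have hsum : Summable (fun k : ℕ => (K1 * K3) ^ 2 * (1 / 4 : ℝ) ^ k) :=
    (summable_geometric_of_lt_one (by norm_num) (by norm_num)).mul_left _
  refine Summable.of_nonneg_of_le (fun k => by positivity) (fun k => ?_) hsum
  have h1 := hT (m + k)
  have h2 := hT0 (m + k)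
  have h3 : K1 * K3 * (1 / 2) ^ (m + k) ≤ K1 * K3 * (1 / 2) ^ k := by
    have : ((1 : ℝ) / 2) ^ (m + k) ≤ (1 / 2) ^ k :=
      pow_le_pow_of_le_one (by norm_num) (by norm_num) (by omega)
    gcongr
  calc κ ^ (2 * k) * Tk κ lam L x w (m + k) t ^ 2 ≤ 1 * Tk κ lam L x w (m + k) t ^ 2 := by
        gcongr
        exact pow_le_one₀ hκ.le hκ1
    _ ≤ (K1 * K3 * (1 / 2) ^ k) ^ 2 := by
        rw [one_mul]
        exact pow_le_pow_left₀ h2 (h1.trans h3) 2
    _ = _ := by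
        rw [mul_pow, ← pow_mul, mul_comm k 2, pow_mul]
        norm_num

end decay

/-! ### Comparison at a fixed time -/

section comp

variable {κ q μ : ℝ} {L : ℕ → ℝ} {x w : ℕ → ℝ → ℝ} {t : ℝ}

lemma Zp_cmp (hκ : 0 < κ) (hκ1 : κ ≤ 1) {b b' : ℕ → ℝ} (j : ℕ) (hb' : ∀ p, 0 ≤ b' p)
    (hb : ∀ p, κ ^ j * b p ≤ κ ^ p * b' p) (m : ℕ) :
    κ ^ (j + 2) * Zp b m ≤ κ ^ m * Zp b' m := by
  unfold Zp
  rcases m with _ | _ | m
  · simp
  · have h0 := hb 0
    have h1 := hb' 0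
    simp only [zero_add, one_ne_zero, if_false, le_refl, if_true, Nat.sub_self, add_zero, pow_one]
    rw [pow_zero, one_mul] at h0
    have h2 : κ ^ 2 ≤ κ := by nlinarith
    calc κ ^ (j + 2) * b 0 = κ ^ 2 * (κ ^ j * b 0) := by ring
      _ ≤ κ ^ 2 * b' 0 := by gcongr
      _ ≤ κ * b' 0 := by gcongr
  · have h0 := hb m
    have h1 := hb (m + 1)
    have h2 := hb' (m + 1)
    rw [if_neg (by omega), if_neg (by omega), if_neg (by omega), if_neg (by omega)]
    rw [show m + 1 + 1 - 1 = m + 1 by omega, show m + 1 + 1 - 2 = m by omega]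
    calc κ ^ (j + 2) * (b (m + 1) + b m) = κ ^ 2 * (κ ^ j * b (m + 1)) + κ ^ 2 * (κ ^ j * b m) := by
          ring
      _ ≤ κ ^ 2 * (κ ^ (m + 1) * b' (m + 1)) + κ ^ 2 * (κ ^ m * b' m) := by gcongr
      _ = κ * (κ ^ (m + 1 + 1) * b' (m + 1)) + κ ^ (m + 1 + 1) * b' m := by ring
      _ ≤ 1 * (κ ^ (m + 1 + 1) * b' (m + 1)) + κ ^ (m + 1 + 1) * b' m := by gcongr
      _ = _ := by ring

lemma rs_nonneg (hκ : 0 < κ) (hw : ∀ p, 0 ≤ w p t) (p : ℕ) : 0 ≤ rs κ w p t :=
  div_nonneg (hw p) (pow_pos hκ p).le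

lemma rs_add (hκ : 0 < κ) (p : ℕ) :
    |x p t| + w p t = κ ^ p * (|rs κ x p t| + rs κ w p t) := by
  rw [abs_rs hκ]
  unfold rs
  field_simp

lemma Aq_nn (hq0 : 0 ≤ q) (hw : ∀ p, 0 ≤ w p t) (m : ℕ) : 0 ≤ Aq q x w m t :=
  Finset.sum_nonneg fun p _ => mul_nonneg (pow_nonneg hq0 _) (add_nonneg (abs_nonneg _) (hw p))

lemma Awq_nn (hq0 : 0 ≤ q) (hw : ∀ p, 0 ≤ w p t) (m : ℕ) : 0 ≤ Awq q w m t :=
  Finset.sum_nonneg fun p _ => mul_nonneg (pow_nonneg hq0 _) (hw p)

lemma At_nn (hw : ∀ p, 0 ≤ w p t) (m : ℕ) : 0 ≤ At μ x w m t :=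
  Finset.sum_nonneg fun p _ => mul_nonneg (by positivity) (add_nonneg (abs_nonneg _) (hw p))

lemma Aw_nn (hw : ∀ p, 0 ≤ w p t) (m : ℕ) : 0 ≤ Aw μ w m t :=
  Finset.sum_nonneg fun p _ => mul_nonneg (by positivity) (hw p)

lemma Zp_nn {b : ℕ → ℝ} (hb : ∀ p, 0 ≤ b p) (m : ℕ) : 0 ≤ Zp b m := by
  unfold Zp
  have h1 := hb (m - 1)
  have h2 := hb (m - 2)
  split_ifs <;> positivity

lemma Tk_nn (hL : ∀ n, 0 < L n) (hw : ∀ p, 0 ≤ w p t) (m : ℕ) : 0 ≤ Tk κ μ L x w m t := by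
  unfold Tk
  have h1 := At_nn (μ := μ) (x := x) hw m
  have h2 := Zp_nn (b := fun p => |x p t| + w p t) (fun p => add_nonneg (abs_nonneg _) (hw p)) m
  have h3 := (hL m).le
  positivity

lemma Tq_nn (hκ : 0 < κ) (hq0 : 0 ≤ q) (hL : ∀ n, 0 < L n) (hw : ∀ p, 0 ≤ w p t) (m : ℕ) :
    0 ≤ Tq κ q L x w m t := by
  unfold Tq
  have h1 := Aq_nn (x := x) hq0 hw m
  have h2 := Zp_nn (b := fun p => |x p t| + w p t) (fun p => add_nonneg (abs_nonneg _) (hw p)) m
  have h3 := (hL m).le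
  positivity

lemma fac1 (hκ : 0 < κ) (hκ1 : κ ≤ 1) (hq0 : 0 ≤ q) (hσ : q ≤ κ * (√μ)⁻¹)
    (hw : ∀ p, 0 ≤ w p t) (m : ℕ) :
    κ * (κ ^ m + Aq q x w m t + √(Yt x w m t)) ≤
      κ ^ m * (1 + At μ (rs κ x) (rs κ w) m t + √(Yk κ (rs κ x) (rs κ w) m t)) := by
  have h1 : κ * Aq q x w m t ≤ κ ^ m * At μ (rs κ x) (rs κ w) m t := Aq_le hκ hq0 hσ hw m
  rw [sqY hκ x w m t]
  have h2 : κ * κ ^ m ≤ κ ^ m := mul_le_of_le_one_left (by positivity) hκ1
  have h3 : κ * (κ ^ m * √(Yk κ (rs κ x) (rs κ w) m t)) ≤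
      κ ^ m * √(Yk κ (rs κ x) (rs κ w) m t) := mul_le_of_le_one_left (by positivity) hκ1
  linarith

lemma fac2 (hκ : 0 < κ) (hκ1 : κ ≤ 1) (hw : ∀ p, 0 ≤ w p t) (m : ℕ) :
    κ ^ 2 * (√(Yt x w m t) + Zp (fun p => |x p t| + w p t) m) ≤
      κ ^ m * (√(Yk κ (rs κ x) (rs κ w) m t) + Zp (fun p => |rs κ x p t| + rs κ w p t) m) := by
  have h1 := Zp_cmp hκ hκ1 (b := fun p => |x p t| + w p t)
    (b' := fun p => |rs κ x p t| + rs κ w p t) 0
    (fun p => add_nonneg (abs_nonneg _) (rs_nonneg hκ hw p))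
    (fun p => by rw [pow_zero, one_mul]; exact (rs_add hκ p).le) m
  rw [zero_add] at h1
  rw [sqY hκ x w m t]
  have h3 : κ ^ 2 * (κ ^ m * √(Yk κ (rs κ x) (rs κ w) m t)) ≤
      κ ^ m * √(Yk κ (rs κ x) (rs κ w) m t) :=
    mul_le_of_le_one_left (by positivity) (pow_le_one₀ hκ.le hκ1)
  linarith

lemma Tq_le (hκ : 0 < κ) (hκ1 : κ ≤ 1) (hq0 : 0 ≤ q) (hσ : q ≤ κ * (√μ)⁻¹)
    (hL : ∀ n, 0 < L n) (hw : ∀ p, 0 ≤ w p t) (m : ℕ) :
    κ ^ 3 * Tq κ q L x w m t ≤
      κ ^ m * Tk κ μ (fun n => κ ^ n * L n) (rs κ x) (rs κ w) m t := by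
  have h1 := fac1 (x := x) hκ hκ1 hq0 hσ hw m
  have h2 := fac2 (x := x) hκ hκ1 hw m
  have h3 := Aq_nn (x := x) hq0 hw m
  have h4 := Zp_nn (b := fun p => |x p t| + w p t) (fun p => add_nonneg (abs_nonneg _) (hw p)) m
  have h5 := hL m
  have h6 := At_nn (μ := μ) (x := rs κ x) (rs_nonneg hκ hw) m
  unfold Tq Tk
  calc κ ^ 3 * (L m * (κ ^ m + Aq q x w m t + √(Yt x w m t)) *
        (√(Yt x w m t) + Zp (fun p => |x p t| + w p t) m))
      = L m * (κ * (κ ^ m + Aq q x w m t + √(Yt x w m t)) *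
        (κ ^ 2 * (√(Yt x w m t) + Zp (fun p => |x p t| + w p t) m))) := by ring
    _ ≤ L m * (κ ^ m * (1 + At μ (rs κ x) (rs κ w) m t + √(Yk κ (rs κ x) (rs κ w) m t)) *
        (κ ^ m * (√(Yk κ (rs κ x) (rs κ w) m t) +
          Zp (fun p => |rs κ x p t| + rs κ w p t) m))) := by
        refine mul_le_mul_of_nonneg_left ?_ h5.le
        exact mul_le_mul h1 h2 (by positivity) (by positivity)
    _ = _ := by ring

lemma ATq_le (hκ : 0 < κ) (hκ1 : κ ≤ 1) (hq0 : 0 ≤ q) (hσ : q ≤ κ * (√μ)⁻¹)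
    (hL : ∀ n, 0 < L n) (hw : ∀ p, 0 ≤ w p t) (m : ℕ) :
    κ ^ 4 * ATq κ q L x w m t ≤
      κ ^ m * ATk κ μ (fun n => κ ^ n * L n) (rs κ x) (rs κ w) m t := by
  unfold ATq ATk
  rw [Finset.mul_sum, Finset.mul_sum]
  refine Finset.sum_le_sum fun p hp => ?_
  rw [Finset.mem_range] at hp
  obtain ⟨k, hk⟩ : ∃ k, m = k + p + 1 := ⟨m - 1 - p, by omega⟩
  have e1 : m - 1 - p = k := by omega
  rw [e1, hk]
  have h1 := Tq_le (x := x) hκ hκ1 hq0 hσ hL hw p
  have h2 := Tq_nn (x := x) hκ hq0 hL hw p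
  have h3 : q ^ k ≤ (κ * (√μ)⁻¹) ^ k := pow_le_pow_left₀ hq0 hσ k
  calc κ ^ 4 * (q ^ k * Tq κ q L x w p t) = κ * (q ^ k * (κ ^ 3 * Tq κ q L x w p t)) := by ring
    _ ≤ κ * ((κ * (√μ)⁻¹) ^ k * (κ ^ 3 * Tq κ q L x w p t)) := by gcongr
    _ ≤ κ * ((κ * (√μ)⁻¹) ^ k *
        (κ ^ p * Tk κ μ (fun n => κ ^ n * L n) (rs κ x) (rs κ w) p t)) := by gcongr
    _ = _ := by
        rw [mul_pow, pow_add, pow_add]
        ring

lemma TTq_le (hκ : 0 < κ) (hκ1 : κ ≤ 1) (hq0 : 0 ≤ q) (hσ : q ≤ κ * (√μ)⁻¹)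
    (hL : ∀ n, 0 < L n) (hw : ∀ p, 0 ≤ w p t) (m : ℕ)
    (hs : Summable (fun k : ℕ => κ ^ (2 * k) *
      Tk κ μ (fun n => κ ^ n * L n) (rs κ x) (rs κ w) (m + k) t ^ 2)) :
    κ ^ 3 * TTq κ q L x w m t ≤
      κ ^ m * TTk κ μ (fun n => κ ^ n * L n) (rs κ x) (rs κ w) m t := by
  unfold TTq TTk
  have e1 : κ ^ 3 * √(∑' k : ℕ, Tq κ q L x w (m + k) t ^ 2) =
      √((κ ^ 3) ^ 2 * ∑' k : ℕ, Tq κ q L x w (m + k) t ^ 2) := by
    rw [Real.sqrt_mul (by positivity), Real.sqrt_sq (by positivity)]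
  have e2 : κ ^ m * √(∑' k : ℕ, κ ^ (2 * k) *
      Tk κ μ (fun n => κ ^ n * L n) (rs κ x) (rs κ w) (m + k) t ^ 2) =
      √((κ ^ m) ^ 2 * ∑' k : ℕ, κ ^ (2 * k) *
      Tk κ μ (fun n => κ ^ n * L n) (rs κ x) (rs κ w) (m + k) t ^ 2) := by
    rw [Real.sqrt_mul (by positivity), Real.sqrt_sq (by positivity)]
  rw [e1, e2]
  apply Real.sqrt_le_sqrt
  rw [← tsum_mul_left, ← tsum_mul_left]
  have hle : ∀ k : ℕ, (κ ^ 3) ^ 2 * Tq κ q L x w (m + k) t ^ 2 ≤ (κ ^ m) ^ 2 * (κ ^ (2 * k) *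
      Tk κ μ (fun n => κ ^ n * L n) (rs κ x) (rs κ w) (m + k) t ^ 2) := by
    intro k
    have h1 := Tq_le (x := x) hκ hκ1 hq0 hσ hL hw (m + k)
    have h2 := Tq_nn (x := x) hκ hq0 hL hw (m + k)
    have h3 := pow_le_pow_left₀ (by positivity) h1 2
    calc (κ ^ 3) ^ 2 * Tq κ q L x w (m + k) t ^ 2 = (κ ^ 3 * Tq κ q L x w (m + k) t) ^ 2 := by ring
      _ ≤ _ := h3
      _ = _ := by
          rw [pow_add]
          ring
  have hs' := hs.mul_left ((κ ^ m) ^ 2)
  exact (Summable.of_nonneg_of_le (fun k => by positivity) hle hs').tsum_le_tsum hle hs'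

lemma Rq_le (hκ : 0 < κ) (hκ1 : κ ≤ 1) (hq0 : 0 ≤ q) (hσ : q ≤ κ * (√μ)⁻¹)
    (hL : ∀ n, 0 < L n) (hw : ∀ p, 0 ≤ w p t) (m : ℕ)
    (hs : Summable (fun k : ℕ => κ ^ (2 * k) *
      Tk κ μ (fun n => κ ^ n * L n) (rs κ x) (rs κ w) (m + k) t ^ 2)) :
    κ ^ 6 * Rq κ q L x w m t ≤
      κ ^ m * (κ ^ m * Rk κ μ (fun n => κ ^ n * L n) (rs κ x) (rs κ w) m t) := by
  have h1 := fac1 (x := x) hκ hκ1 hq0 hσ hw m
  have h2 := fac2 (x := x) hκ hκ1 hw m
  have h3 := Aq_nn (x := x) hq0 hw m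
  have h4 := Zp_nn (b := fun p => |x p t| + w p t) (fun p => add_nonneg (abs_nonneg _) (hw p)) m
  have h6 := At_nn (μ := μ) (x := rs κ x) (rs_nonneg hκ hw) m
  have hL' : ∀ n, 0 < (fun n => κ ^ n * L n) n := fun n => mul_pos (pow_pos hκ n) (hL n)
  have h7 := TTq_le (x := x) hκ hκ1 hq0 hσ hL hw m hs
  have h8 := ATq_le (x := x) hκ hκ1 hq0 hσ hL hw m
  have h9 := Zp_cmp hκ hκ1 (b := fun p => Tq κ q L x w p t)
    (b' := fun p => Tk κ μ (fun n => κ ^ n * L n) (rs κ x) (rs κ w) p t) 3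
    (fun p => Tk_nn hL' (rs_nonneg hκ hw) p)
    (fun p => Tq_le (x := x) hκ hκ1 hq0 hσ hL hw p) m
  rw [show 3 + 2 = 5 from rfl] at h9
  have t1 : 0 ≤ TTq κ q L x w m t := Real.sqrt_nonneg _
  have t2 : 0 ≤ ATq κ q L x w m t :=
    Finset.sum_nonneg fun p _ => mul_nonneg (pow_nonneg hq0 _) (Tq_nn (x := x) hκ hq0 hL hw p)
  have t3 : 0 ≤ Zp (fun p => Tq κ q L x w p t) m :=
    Zp_nn (fun p => Tq_nn (x := x) hκ hq0 hL hw p) m
  have t4 : 0 ≤ TTk κ μ (fun n => κ ^ n * L n) (rs κ x) (rs κ w) m t := Real.sqrt_nonneg _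
  have t5 : 0 ≤ ATk κ μ (fun n => κ ^ n * L n) (rs κ x) (rs κ w) m t :=
    Finset.sum_nonneg fun p _ => mul_nonneg (by positivity) (Tk_nn hL' (rs_nonneg hκ hw) p)
  -- the factors with `T`
  have a1 : κ ^ 5 * (TTq κ q L x w m t + Zp (fun p => Tq κ q L x w p t) m) ≤
      κ ^ m * (TTk κ μ (fun n => κ ^ n * L n) (rs κ x) (rs κ w) m t +
        Zp (fun p => Tk κ μ (fun n => κ ^ n * L n) (rs κ x) (rs κ w) p t) m) := by
    have b1 : κ ^ 5 * TTq κ q L x w m t ≤ κ ^ 3 * TTq κ q L x w m t := by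
      have : κ ^ 5 ≤ κ ^ 3 := pow_le_pow_of_le_one hκ.le hκ1 (by norm_num)
      gcongr
    linarith
  have a2 : κ ^ 4 * (ATq κ q L x w m t + TTq κ q L x w m t) ≤
      κ ^ m * (ATk κ μ (fun n => κ ^ n * L n) (rs κ x) (rs κ w) m t +
        TTk κ μ (fun n => κ ^ n * L n) (rs κ x) (rs κ w) m t) := by
    have b1 : κ ^ 4 * TTq κ q L x w m t ≤ κ ^ 3 * TTq κ q L x w m t := by
      have : κ ^ 4 ≤ κ ^ 3 := pow_le_pow_of_le_one hκ.le hκ1 (by norm_num)
      gcongr
    linarith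
  unfold Rq Rk
  have p1 := mul_le_mul h1 a1 (by positivity) (by positivity)
  have p2 := mul_le_mul a2 h2 (by positivity) (by positivity)
  calc κ ^ 6 * ((κ ^ m + Aq q x w m t + √(Yt x w m t)) *
        (TTq κ q L x w m t + Zp (fun p => Tq κ q L x w p t) m) +
        (ATq κ q L x w m t + TTq κ q L x w m t) *
        (√(Yt x w m t) + Zp (fun p => |x p t| + w p t) m))
      = κ * (κ ^ m + Aq q x w m t + √(Yt x w m t)) *
        (κ ^ 5 * (TTq κ q L x w m t + Zp (fun p => Tq κ q L x w p t) m)) +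
        κ ^ 4 * (ATq κ q L x w m t + TTq κ q L x w m t) *
        (κ ^ 2 * (√(Yt x w m t) + Zp (fun p => |x p t| + w p t) m)) := by ring
    _ ≤ _ := add_le_add p1 p2
    _ = _ := by ring

/-- absorption of the powers of `κ` in the constant `N₂` -/
lemma absN {N₂ A B : ℝ} (hκ : 0 < κ) (hκ1 : κ ≤ 1) (hN : 0 ≤ N₂) {j : ℕ} (hj : j ≤ 6)
    (hA : 0 ≤ A) (h : κ ^ j * A ≤ B) : N₂ * A ≤ N₂ / κ ^ 6 * B := by
  have h1 : κ ^ 6 * A ≤ B := by
    refine le_trans ?_ h
    have : κ ^ 6 ≤ κ ^ j := pow_le_pow_of_le_one hκ.le hκ1 hj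
    gcongr
  have h2 : 0 < κ ^ 6 := by positivity
  rw [div_mul_eq_mul_div, le_div_iff₀ h2]
  calc N₂ * A * κ ^ 6 = N₂ * (κ ^ 6 * A) := by ring
    _ ≤ _ := mul_le_mul_of_nonneg_left h1 hN

end comp

/-- absorption of the powers of `κ` -/
lemma absorb10 {κ lam N A B : ℝ} (h : 10 ≤ κ ^ 3 * lam ^ 3) (hl : 0 ≤ lam) (hN : 0 ≤ N)
    (hA : 0 ≤ A) (h1 : κ ^ 3 * A ≤ B) : 10 * N * A ≤ N * lam ^ 3 * B := by
  calc 10 * N * A = N * (10 * A) := by ring
    _ ≤ N * (κ ^ 3 * lam ^ 3 * A) := by gcongr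
    _ = N * lam ^ 3 * (κ ^ 3 * A) := by ring
    _ ≤ N * lam ^ 3 * B := by gcongr

theorem t_RESCR : S_RESCR := by
  intro κ μ lam Λ M L C ℓ B h
  have hκ := h.κ0
  have hκ1 := h.κ1
  have hμb := h.μ_big
  have hμ1 : 1 ≤ μ := le_trans (by norm_num) hμb
  have hμ0 : 0 < μ := by linarith
  have hμ2 : 2 ≤ μ := le_trans (by norm_num) hμb
  have hlam0 : 0 < lam := by
    have := h.μ_eq
    by_contra hc
    have : κ * lam ≤ 0 := mul_nonpos_of_nonneg_of_nonpos hκ.le (not_lt.1 hc)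
    linarith [h.μ_eq]
  have hlamμ : μ ≤ lam := by
    rw [h.μ_eq]
    nlinarith
  have hlam1 : 1 ≤ lam := hμ1.trans hlamμ
  have hκl : 10 ≤ κ ^ 3 * lam ^ 3 := by
    rw [← mul_pow, ← h.μ_eq]
    have h10 : (10 : ℝ) ≤ μ := le_trans (by norm_num) hμb
    exact h10.trans (le_self_pow₀ hμ1 (by norm_num))
  have hL : ∀ n, 0 < L n := by
    intro n
    induction n with
    | zero => linarith [h.L0]
    | succ n ih => rw [h.L_succ]; positivity
  have hM : 1 ≤ M := h.M_one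
  set N0 := 10 ^ 6 * M ^ 4 with hN0
  have hN01 : 1 ≤ N0 := by
    have : 1 ≤ M ^ 4 := one_le_pow₀ hM
    rw [hN0]; linarith
  have hN00 : 0 ≤ N0 := by linarith
  have hN7 : 10 ^ 7 * M ^ 4 = 10 * N0 := by rw [hN0]; ring
  have hl3 : 1 ≤ lam ^ 3 := one_le_pow₀ hlam1
  have hN' : 1 ≤ N0 * lam ^ 3 := one_le_mul_of_one_le_of_one_le hN01 hl3
  set q := Λ / lam with hq
  have hq0 : 0 ≤ q := div_nonneg (by linarith [h.Λ_ge]) hlam0.le
  have hσ : q ≤ κ * (√μ)⁻¹ := by
    have h1 : Λ ≤ √μ := Real.le_sqrt_of_sq_le h.Λ_sq.le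
    have h2 : lam = μ / κ := by rw [h.μ_eq]; field_simp
    have h3 : 0 < √μ := Real.sqrt_pos.2 hμ0
    rw [hq, h2, div_div_eq_mul_div, div_le_iff₀ hμ0]
    have h4 : κ * (√μ)⁻¹ * μ = κ * √μ := by
      have : μ = √μ * √μ := (Real.mul_self_sqrt hμ0.le).symm
      nth_rewrite 2 [this]
      field_simp
    rw [h4, mul_comm]
    exact mul_le_mul_of_nonneg_left h1 hκ.le
  have hμσ : ∀ n, κ ^ (n + 1) * L (n + 1) = μ * (κ ^ n * L n) := by
    intro n
    rw [h.L_succ, h.μ_eq]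
    ring
  have hL1 : ∀ n, 1 ≤ κ ^ n * L n :=
    fun n => L_one (L := fun n => κ ^ n * L n) hμ2 (by simpa using h.L0) hμσ n
  refine ⟨?_, ?_⟩
  · refine ⟨hκ, hκ1, h.κs, ?_, hμb, by simpa using h.L0, hμσ, hN', ?_, ?_, ?_, h.B_lo, h.B_hi,
      by simpa using h.ℓ_zero, h.ℓ_succ⟩
    · have e : κ * (N0 * lam ^ 3) = N0 * lam ^ 2 * μ := by rw [h.μ_eq]; ring
      rw [e]
      exact one_le_mul_of_one_le_of_one_le
        (one_le_mul_of_one_le_of_one_le hN01 (one_le_pow₀ hlam1)) hμ1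
    · have h1 := h.exp_big
      have h2 : Real.exp (μ / 10 ^ 6) = Real.exp (μ / 10 ^ 7) ^ 10 := by
        rw [← Real.exp_nat_mul]
        congr 1
        push_cast
        ring
      rw [h2] at h1
      exact le_of_pow_le_pow_left₀ (by norm_num) (Real.exp_pos _).le h1
    · intro n
      show Real.exp (-(601 / 10000) * μ) ≤ C n / κ
      rw [le_div_iff₀ hκ]
      have := h.C_lo n
      rw [mul_comm, neg_mul]
      exact this
    · intro n
      show C n / κ ≤ Real.exp (-(599 / 10000) * μ)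
      rw [div_le_iff₀ hκ]
      have := h.C_hi n
      rw [mul_comm, neg_mul]
      exact this
  · intro N₂ hN₂
    have hκ6 : 0 < κ ^ 6 := by positivity
    have hN₂0 : 0 ≤ N₂ := by linarith
    refine ⟨N₂ / κ ^ 6, ?_, ?_⟩
    · rw [one_le_div hκ6]
      exact (pow_le_one₀ hκ.le hκ1).trans hN₂
    intro Q A0 T x w v f hQ hT hS
    have hQ0 : 0 < Q := by linarith
    change SysR κ μ (N0 * lam ^ 3) (N₂ / κ ^ 6) Q A0 (fun n => κ ^ n * L n) (fun n => C n / κ)
        ℓ B T (rs κ x) (rs κ w) (fun G t => v G t / κ ^ (2 * G)) (rs κ f) ∧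
      (∀ m, ∀ t ∈ Ico 0 T, √(Yt x w m t) = κ ^ m * √(Yk κ (rs κ x) (rs κ w) m t)) ∧
      (GrowE κ μ T (rs κ x) (rs κ w) → Grow5 κ μ T x w)
    have hY0 : ∀ m t, Yk κ (rs κ x) (rs κ w) m t = Yt x w m t / κ ^ (2 * m) := Yk_eq hκ x w
    have hw0 : ∀ n, ∀ t ∈ Ico 0 T, 0 ≤ rs κ w n t := fun n t ht =>
      div_nonneg (hS.w0 n t ht) (pow_pos hκ n).le
    have hrs : ∀ (y : ℕ → ℝ → ℝ) n t, y n t = κ ^ n * rs κ y n t := by
      intro y n t
      unfold rs
      field_simp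
    -- the sums
    have hA : ∀ n, ∀ t ∈ Ico 0 T, κ * Aq q x w n t ≤ κ ^ n * At μ (rs κ x) (rs κ w) n t :=
      fun n t ht => Aq_le hκ hq0 hσ (fun p => hS.w0 p t ht) n
    have hAw : ∀ n, ∀ t ∈ Ico 0 T, κ * Awq q w n t ≤ κ ^ n * Aw μ (rs κ w) n t :=
      fun n t ht => Awq_le hκ hq0 hσ (fun p => hS.w0 p t ht) n
    have hA0 : ∀ n, ∀ t ∈ Ico 0 T, 0 ≤ Aq q x w n t := fun n t ht =>
      Aq_nn hq0 (fun p => hS.w0 p t ht) n
    have hAw0 : ∀ n, ∀ t ∈ Ico 0 T, 0 ≤ Awq q w n t := fun n t ht =>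
      Awq_nn hq0 (fun p => hS.w0 p t ht) n
    have hAt0 : ∀ n, ∀ t ∈ Ico 0 T, 0 ≤ At μ (rs κ x) (rs κ w) n t := fun n t ht =>
      At_nn (fun p => hw0 p t ht) n
    have hAwt0 : ∀ n, ∀ t ∈ Ico 0 T, 0 ≤ Aw μ (rs κ w) n t := fun n t ht =>
      Aw_nn (fun p => hw0 p t ht) n
    have hlocle : ∀ n, ∀ t ∈ Ico 0 T, κ ^ 3 * loc L x w n t ≤
        κ ^ n * loc (fun n => κ ^ n * L n) (rs κ x) (rs κ w) n t :=
      fun n t ht => loc_le hκ hκ1 hL (fun p => hS.w0 p t ht) n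
    have hloc0 : ∀ n, ∀ t ∈ Ico 0 T, 0 ≤ loc L x w n t := by
      intro n t ht
      unfold loc
      split_ifs
      · exact le_rfl
      · have h1 := hS.w0 (n - 1) t ht
        have h2 := hS.w0 (n - 2) t ht
        have h3 := (hL (n - 1)).le
        positivity
    have hUw0 : ∀ n, ∀ t ∈ Ico 0 T, 0 ≤ Uw L w n t := fun n t ht =>
      Finset.sum_nonneg fun p _ => mul_nonneg (hL p).le (hS.w0 p t ht)
    have hk3 : κ ^ 3 ≤ 1 := pow_le_one₀ hκ.le hκ1
    have hk2 : κ ^ 2 ≤ 1 := pow_le_one₀ hκ.le hκ1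
    have hk3' : κ ^ 3 ≤ κ := by
      have : κ ^ 3 ≤ κ ^ 1 := pow_le_pow_of_le_one hκ.le hκ1 (by norm_num)
      simpa using this
    -- decay
    have hbd : ∀ k : ℕ, ∀ T' < T, ∃ K, ∀ t ∈ Icc 0 T', ∀ n,
        (κ ^ n * L n) ^ k * (|rs κ x n t| + rs κ w n t) ≤ K := by
      intro k T' hT'
      obtain ⟨K, hK⟩ := hS.bdd (k + 1) T' hT'
      refine ⟨K, fun t ht n => ?_⟩
      have ht' : t ∈ Ico 0 T := ⟨ht.1, lt_of_le_of_lt ht.2 hT'⟩
      have h1 := hK t ht n
      have h2 := hS.w0 n t ht'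
      have hn : 0 < κ ^ n := pow_pos hκ n
      have hLn := hL n
      have h3 : 0 ≤ |x n t| + w n t := by positivity
      refine le_trans ?_ h1
      rw [abs_rs hκ]
      unfold rs
      rw [← add_div, mul_div_assoc', div_le_iff₀ hn]
      have h4 : (κ ^ n) ^ k ≤ 1 := pow_le_one₀ hn.le (pow_le_one₀ hκ.le hκ1)
      calc (κ ^ n * L n) ^ k * (|x n t| + w n t) =
          (κ ^ n) ^ k * (L n ^ k * (|x n t| + w n t)) := by ring
        _ ≤ 1 * (L n ^ k * (|x n t| + w n t)) := by gcongr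
        _ ≤ (κ ^ n * L n) * (L n ^ k * (|x n t| + w n t)) := by
            have := hL1 n
            gcongr
        _ = _ := by ring
    have hsT : ∀ m, ∀ t ∈ Ico 0 T, Summable (fun k : ℕ => κ ^ (2 * k) *
        Tk κ μ (fun n => κ ^ n * L n) (rs κ x) (rs κ w) (m + k) t ^ 2) := by
      intro m t ht
      refine Tk_sum (L := fun n => κ ^ n * L n) hμ2 (by simpa using h.L0) hμσ hκ hκ1
        (fun n => hw0 n t ht) ?_ m
      intro j
      obtain ⟨K, hK⟩ := hbd j t ht.2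
      exact ⟨K, fun n => hK t ⟨ht.1, le_rfl⟩ n⟩
    refine ⟨⟨?_, ?_, hw0, ?_, ?_, ?_, ?_, ?_, ?_, ?_, hbd, ?_, ?_, ?_, ?_⟩,
      fun m t _ => sqY hκ x w m t, ?_⟩
    · -- dx
      intro n t ht
      have h1 := (hS.dx n t ht).div_const (κ ^ n)
      rw [vf_eq hκ]
      have e : vf3 L C ℓ B (fun m => x m t) n / κ ^ n + rs κ f n t =
          (vf3 L C ℓ B (fun m => x m t) n + f n t) / κ ^ n := by
        unfold rs
        rw [add_div]
      rw [e]
      exact h1
    · -- fb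
      intro n t ht
      have h1 := hS.fb n t ht
      have hn : 0 < κ ^ n := pow_pos hκ n
      rw [abs_rs hκ, div_le_iff₀ hn]
      set T1 := L n * (κ ^ n + Aq q x w n t + √(Yt x w n t)) * √(Wt w n t) with hT1
      set T2 := Uw L w n t * √(Yt x w n t) with hT2
      set T3 := L n * Awq q w n t * √(Yt x w (n + 1) t) with hT3
      set T4 := loc L x w n t with hT4
      have hT1' : 0 ≤ T1 := by
        have := hA0 n t ht
        have := (hL n).le
        positivity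
      have t1 : κ ^ 3 * T1 ≤ κ ^ n * (κ ^ n * L n * (1 + At μ (rs κ x) (rs κ w) n t +
          √(Yk κ (rs κ x) (rs κ w) n t)) * √(Wk κ (rs κ w) n t)) := by
        have b1 := fac1 (x := x) hκ hκ1 hq0 hσ (fun p => hS.w0 p t ht) n
        have b2 := hA0 n t ht
        have b3 := (hL n).le
        calc κ ^ 3 * T1 ≤ κ * T1 := mul_le_mul_of_nonneg_right hk3' hT1'
          _ = L n * (κ * (κ ^ n + Aq q x w n t + √(Yt x w n t))) *
              (κ ^ n * √(Wk κ (rs κ w) n t)) := by rw [hT1, sqW hκ]; ring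
          _ ≤ L n * (κ ^ n * (1 + At μ (rs κ x) (rs κ w) n t +
              √(Yk κ (rs κ x) (rs κ w) n t))) * (κ ^ n * √(Wk κ (rs κ w) n t)) := by gcongr
          _ = _ := by ring
      have t2 : κ ^ 3 * T2 ≤ κ ^ n * (Uw (fun n => κ ^ n * L n) (rs κ w) n t *
          √(Yk κ (rs κ x) (rs κ w) n t)) := by
        rw [Uw_eq hκ, hT2, sqY hκ x w n t]
        have b1 := hUw0 n t ht
        have b2 : 0 ≤ √(Yk κ (rs κ x) (rs κ w) n t) := Real.sqrt_nonneg _
        calc κ ^ 3 * (Uw L w n t * (κ ^ n * √(Yk κ (rs κ x) (rs κ w) n t))) ≤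
            Uw L w n t * (κ ^ n * √(Yk κ (rs κ x) (rs κ w) n t)) :=
              mul_le_of_le_one_left (by positivity) hk3
          _ = _ := by ring
      have t3 : κ ^ 3 * T3 ≤ κ ^ n * (κ ^ n * L n * Aw μ (rs κ w) n t *
          √(Yk κ (rs κ x) (rs κ w) (n + 1) t)) := by
        rw [hT3, sqY hκ x w (n + 1) t]
        have b1 := hAw0 n t ht
        have b2 : 0 ≤ √(Yk κ (rs κ x) (rs κ w) (n + 1) t) := Real.sqrt_nonneg _
        have b3 := hAw n t ht
        have hLn := hL n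
        have b4 : 0 ≤ κ * Awq q w n t * (L n * κ ^ n * √(Yk κ (rs κ x) (rs κ w) (n + 1) t)) := by
          positivity
        calc κ ^ 3 * (L n * Awq q w n t * (κ ^ (n + 1) * √(Yk κ (rs κ x) (rs κ w) (n + 1) t)))
            = κ ^ 3 * (κ * Awq q w n t *
              (L n * κ ^ n * √(Yk κ (rs κ x) (rs κ w) (n + 1) t))) := by
              rw [pow_succ κ n]; ring
          _ ≤ κ * Awq q w n t * (L n * κ ^ n * √(Yk κ (rs κ x) (rs κ w) (n + 1) t)) :=
              mul_le_of_le_one_left b4 hk3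
          _ ≤ κ ^ n * Aw μ (rs κ w) n t *
              (L n * κ ^ n * √(Yk κ (rs κ x) (rs κ w) (n + 1) t)) :=
              mul_le_mul_of_nonneg_right b3 (by positivity)
          _ = _ := by ring
      have t4 := hlocle n t ht
      have hT2' : 0 ≤ T2 := mul_nonneg (hUw0 n t ht) (Real.sqrt_nonneg _)
      have hT3' : 0 ≤ T3 := mul_nonneg (mul_nonneg (hL n).le (hAw0 n t ht)) (Real.sqrt_nonneg _)
      have hT4' : 0 ≤ T4 := hloc0 n t ht
      set E1 := κ ^ n * L n * (1 + At μ (rs κ x) (rs κ w) n t +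
          √(Yk κ (rs κ x) (rs κ w) n t)) * √(Wk κ (rs κ w) n t) with hE1
      set E2 := Uw (fun n => κ ^ n * L n) (rs κ w) n t * √(Yk κ (rs κ x) (rs κ w) n t) with hE2
      set E3 := κ ^ n * L n * Aw μ (rs κ w) n t * √(Yk κ (rs κ x) (rs κ w) (n + 1) t) with hE3
      set E4 := loc (fun n => κ ^ n * L n) (rs κ x) (rs κ w) n t with hE4
      have tt : κ ^ 3 * (T1 + T2 + T3 + T4) ≤ κ ^ n * (E1 + E2 + E3 + E4) := by
        calc κ ^ 3 * (T1 + T2 + T3 + T4) = κ ^ 3 * T1 + κ ^ 3 * T2 + κ ^ 3 * T3 + κ ^ 3 * T4 := by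
              ring
          _ ≤ κ ^ n * E1 + κ ^ n * E2 + κ ^ n * E3 + κ ^ n * E4 :=
              add_le_add (add_le_add (add_le_add t1 t2) t3) t4
          _ = _ := by ring
      have key := absorb10 hκl hlam0.le hN00 (by positivity) tt
      calc |f n t| ≤ 10 ^ 7 * M ^ 4 * (T1 + T2 + T3 + T4) := h1
        _ = 10 * N0 * (T1 + T2 + T3 + T4) := by rw [hN7]
        _ ≤ N0 * lam ^ 3 * (κ ^ n * (E1 + E2 + E3 + E4)) := key
        _ = _ := by ring
    · -- wc
      intro n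
      exact (hS.wc n).div_const _
    · -- v0
      intro G t ht
      exact div_nonneg (hS.v0 G t ht) (pow_pos hκ _).le
    · -- vc
      intro G
      exact (hS.vc G).div_const _
    · -- vw
      intro G t ht
      have h1 := hS.vw G t ht
      have hn : 0 < κ ^ (2 * G) := pow_pos hκ _
      have hLn := hL (2 * G)
      have e1 : √(w (2 * G) t ^ 2 + w (2 * G + 1) t ^ 2) =
          κ ^ (2 * G) * √(rs κ w (2 * G) t ^ 2 + κ ^ 2 * rs κ w (2 * G + 1) t ^ 2) := by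
        have e2 : w (2 * G) t ^ 2 + w (2 * G + 1) t ^ 2 =
            (κ ^ (2 * G)) ^ 2 *
              (rs κ w (2 * G) t ^ 2 + κ ^ 2 * rs κ w (2 * G + 1) t ^ 2) := by
          rw [hrs w (2 * G) t, hrs w (2 * G + 1) t, pow_succ κ (2 * G)]
          ring
        rw [e2, Real.sqrt_mul (by positivity), Real.sqrt_sq hn.le]
      have e3 : √(w (2 * G) t ^ 2 + w (2 * G + 1) t ^ 2) - v G t = κ ^ (2 * G) *
          (√(rs κ w (2 * G) t ^ 2 + κ ^ 2 * rs κ w (2 * G + 1) t ^ 2) - v G t / κ ^ (2 * G)) := by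
        rw [e1]
        field_simp
      rw [e3, abs_mul, abs_of_pos hn] at h1
      have h2 := absN (j := 3) (N₂ := N₂) hκ hκ1 hN₂0 (by norm_num)
        (Tq_nn (x := x) hκ hq0 hL (fun p => hS.w0 p t ht) (2 * G))
        (Tq_le (x := x) hκ hκ1 hq0 hσ hL (fun p => hS.w0 p t ht) (2 * G))
      have h3 : N₂ / (Q * (κ ^ (2 * G) * L (2 * G))) * Tq κ q L x w (2 * G) t ≤
          κ ^ (2 * G) * (N₂ / κ ^ 6 / Q * (Tk κ μ (fun n => κ ^ n * L n) (rs κ x) (rs κ w)
            (2 * G) t / (κ ^ (2 * G) * L (2 * G)))) := by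
        have h4 : 0 < 1 / (Q * (κ ^ (2 * G) * L (2 * G))) := by positivity
        have h5 := mul_le_mul_of_nonneg_left h2 h4.le
        calc N₂ / (Q * (κ ^ (2 * G) * L (2 * G))) * Tq κ q L x w (2 * G) t
            = 1 / (Q * (κ ^ (2 * G) * L (2 * G))) * (N₂ * Tq κ q L x w (2 * G) t) := by ring
          _ ≤ _ := h5
          _ = _ := by field_simp
      exact le_of_mul_le_mul_left (h1.trans h3) hn
    · -- dv
      intro G t ht
      obtain ⟨D, h1, h2⟩ := hS.dv G t ht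
      have hn : 0 < κ ^ (2 * G) := pow_pos hκ _
      have hwt : ∀ p, 0 ≤ w p t := fun p => hS.w0 p t ht
      refine ⟨D / (κ ^ (2 * G)) ^ 2, ?_, ?_⟩
      · have h3 := h1.div_const ((κ ^ (2 * G)) ^ 2)
        have e : (fun τ => (v G τ / κ ^ (2 * G)) ^ 2) =
            fun τ => v G τ ^ 2 / (κ ^ (2 * G)) ^ 2 := by
          funext τ
          rw [div_pow]
        rw [e]
        exact h3
      · rw [div_le_iff₀ (by positivity)]
        set vG := v G t / κ ^ (2 * G) with hvG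
        have ev : v G t = κ ^ (2 * G) * vG := by rw [hvG]; field_simp
        have hv0 : 0 ≤ vG := div_nonneg (hS.v0 G t ht) hn.le
        rw [ev] at h2
        have hLn := hL (2 * G)
        -- the four terms
        have p1 : -((if G = 0 then 0 else 1 / 1000 * (κ ^ (2 * G) * L (2 * G) / μ)) *
            (κ ^ (2 * G) * vG)) = κ ^ (2 * G) *
            (-((if G = 0 then 0 else 1 / 1000 * (κ ^ (2 * G) * L (2 * G) / μ)) * vG)) := by
          ring
        have p2 : N₂ * (L (2 * G) * (Aq q x w (2 * G) t + √(Yt x w (2 * G) t))) *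
            (κ ^ (2 * G) * vG) ≤ κ ^ (2 * G) * (N₂ / κ ^ 6 * (κ ^ (2 * G) * L (2 * G) *
              (At μ (rs κ x) (rs κ w) (2 * G) t + √(Yk κ (rs κ x) (rs κ w) (2 * G) t))) * vG) := by
          have b1 : κ ^ 1 * (Aq q x w (2 * G) t + √(Yt x w (2 * G) t)) ≤ κ ^ (2 * G) *
              (At μ (rs κ x) (rs κ w) (2 * G) t + √(Yk κ (rs κ x) (rs κ w) (2 * G) t)) := by
            rw [pow_one, sqY hκ x w (2 * G) t]
            have c1 := hA (2 * G) t ht
            have c2 : κ * (κ ^ (2 * G) * √(Yk κ (rs κ x) (rs κ w) (2 * G) t)) ≤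
                κ ^ (2 * G) * √(Yk κ (rs κ x) (rs κ w) (2 * G) t) :=
              mul_le_of_le_one_left (by positivity) hκ1
            linarith
          have b2 := absN (N₂ := N₂) hκ hκ1 hN₂0 (by norm_num)
            (add_nonneg (hA0 (2 * G) t ht) (Real.sqrt_nonneg _)) b1
          calc N₂ * (L (2 * G) * (Aq q x w (2 * G) t + √(Yt x w (2 * G) t))) *
                (κ ^ (2 * G) * vG) = L (2 * G) * (κ ^ (2 * G) * vG) *
                (N₂ * (Aq q x w (2 * G) t + √(Yt x w (2 * G) t))) := by ring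
            _ ≤ L (2 * G) * (κ ^ (2 * G) * vG) * (N₂ / κ ^ 6 * (κ ^ (2 * G) *
              (At μ (rs κ x) (rs κ w) (2 * G) t + √(Yk κ (rs κ x) (rs κ w) (2 * G) t)))) :=
                mul_le_mul_of_nonneg_left b2 (by positivity)
            _ = _ := by ring
        have p3 : N₂ / (Q * κ ^ (2 * G)) * Rq κ q L x w (2 * G) t ≤ κ ^ (2 * G) *
            (N₂ / κ ^ 6 / Q * Rk κ μ (fun n => κ ^ n * L n) (rs κ x) (rs κ w) (2 * G) t) := by
          have r0 : 0 ≤ Rq κ q L x w (2 * G) t := by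
            have t1 : 0 ≤ TTq κ q L x w (2 * G) t := Real.sqrt_nonneg _
            have t2 : 0 ≤ ATq κ q L x w (2 * G) t :=
              Finset.sum_nonneg fun p _ =>
                mul_nonneg (pow_nonneg hq0 _) (Tq_nn (x := x) hκ hq0 hL hwt p)
            have t3 : 0 ≤ Zp (fun p => Tq κ q L x w p t) (2 * G) :=
              Zp_nn (fun p => Tq_nn (x := x) hκ hq0 hL hwt p) (2 * G)
            have t4 := hA0 (2 * G) t ht
            have t5 := Zp_nn (b := fun p => |x p t| + w p t)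
              (fun p => add_nonneg (abs_nonneg _) (hwt p)) (2 * G)
            unfold Rq
            positivity
          have b1 := Rq_le (x := x) hκ hκ1 hq0 hσ hL hwt (2 * G) (hsT (2 * G) t ht)
          have b2 := absN (N₂ := N₂) hκ hκ1 hN₂0 le_rfl r0 b1
          have h4 : 0 < 1 / (Q * κ ^ (2 * G)) := by positivity
          have h5 := mul_le_mul_of_nonneg_left b2 h4.le
          calc N₂ / (Q * κ ^ (2 * G)) * Rq κ q L x w (2 * G) t
              = 1 / (Q * κ ^ (2 * G)) * (N₂ * Rq κ q L x w (2 * G) t) := by ring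
            _ ≤ _ := h5
            _ = _ := by field_simp
        have p4 : N₂ * (L (2 * G) * (Awq q w (2 * G) t + √(Wt w (2 * G) t)) *
            √(Wt w (2 * G) t) + (if G = 0 then 0 else L (2 * G - 1) * Awq q w (2 * G) t *
              w (2 * G - 1) t)) ≤ κ ^ (2 * G) * (N₂ / κ ^ 6 * (κ ^ (2 * G) * L (2 * G) *
            (Aw μ (rs κ w) (2 * G) t + √(Wk κ (rs κ w) (2 * G) t)) * √(Wk κ (rs κ w) (2 * G) t)
            + (if G = 0 then 0 else κ ^ (2 * G - 1) * L (2 * G - 1) * Aw μ (rs κ w) (2 * G) t *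
              rs κ w (2 * G - 1) t))) := by
          have c1 := hAw (2 * G) t ht
          have c0 := hAw0 (2 * G) t ht
          have b1 : κ * (L (2 * G) * (Awq q w (2 * G) t + √(Wt w (2 * G) t)) *
              √(Wt w (2 * G) t)) ≤ κ ^ (2 * G) * (κ ^ (2 * G) * L (2 * G) *
              (Aw μ (rs κ w) (2 * G) t + √(Wk κ (rs κ w) (2 * G) t)) *
              √(Wk κ (rs κ w) (2 * G) t)) := by
            rw [sqW hκ w (2 * G) t]
            have c2 : κ * (κ ^ (2 * G) * √(Wk κ (rs κ w) (2 * G) t)) ≤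
                κ ^ (2 * G) * √(Wk κ (rs κ w) (2 * G) t) :=
              mul_le_of_le_one_left (by positivity) hκ1
            have c3 : κ * (Awq q w (2 * G) t + κ ^ (2 * G) * √(Wk κ (rs κ w) (2 * G) t)) ≤
                κ ^ (2 * G) * (Aw μ (rs κ w) (2 * G) t + √(Wk κ (rs κ w) (2 * G) t)) := by
              linarith
            calc κ * (L (2 * G) * (Awq q w (2 * G) t + κ ^ (2 * G) *
                  √(Wk κ (rs κ w) (2 * G) t)) * (κ ^ (2 * G) * √(Wk κ (rs κ w) (2 * G) t)))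
                = L (2 * G) * (κ ^ (2 * G) * √(Wk κ (rs κ w) (2 * G) t)) *
                  (κ * (Awq q w (2 * G) t + κ ^ (2 * G) * √(Wk κ (rs κ w) (2 * G) t))) := by
                  ring
              _ ≤ L (2 * G) * (κ ^ (2 * G) * √(Wk κ (rs κ w) (2 * G) t)) *
                  (κ ^ (2 * G) * (Aw μ (rs κ w) (2 * G) t + √(Wk κ (rs κ w) (2 * G) t))) :=
                  mul_le_mul_of_nonneg_left c3 (by positivity)
              _ = _ := by ring
          have b2 : κ * (if G = 0 then 0 else L (2 * G - 1) * Awq q w (2 * G) t *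
              w (2 * G - 1) t) ≤ κ ^ (2 * G) * (if G = 0 then 0 else κ ^ (2 * G - 1) *
              L (2 * G - 1) * Aw μ (rs κ w) (2 * G) t * rs κ w (2 * G - 1) t) := by
            split_ifs with hG
            · simp
            · have d1 := hL (2 * G - 1)
              have d2 := hw0 (2 * G - 1) t ht
              rw [hrs w (2 * G - 1) t]
              calc κ * (L (2 * G - 1) * Awq q w (2 * G) t *
                    (κ ^ (2 * G - 1) * rs κ w (2 * G - 1) t))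
                  = L (2 * G - 1) * (κ ^ (2 * G - 1) * rs κ w (2 * G - 1) t) *
                    (κ * Awq q w (2 * G) t) := by ring
                _ ≤ L (2 * G - 1) * (κ ^ (2 * G - 1) * rs κ w (2 * G - 1) t) *
                    (κ ^ (2 * G) * Aw μ (rs κ w) (2 * G) t) :=
                    mul_le_mul_of_nonneg_left c1 (by positivity)
                _ = _ := by ring
          have b3 : κ ^ 1 * (L (2 * G) * (Awq q w (2 * G) t + √(Wt w (2 * G) t)) *
              √(Wt w (2 * G) t) + (if G = 0 then 0 else L (2 * G - 1) * Awq q w (2 * G) t *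
              w (2 * G - 1) t)) ≤ κ ^ (2 * G) * (κ ^ (2 * G) * L (2 * G) *
              (Aw μ (rs κ w) (2 * G) t + √(Wk κ (rs κ w) (2 * G) t)) *
              √(Wk κ (rs κ w) (2 * G) t) + (if G = 0 then 0 else κ ^ (2 * G - 1) *
              L (2 * G - 1) * Aw μ (rs κ w) (2 * G) t * rs κ w (2 * G - 1) t)) := by
            rw [pow_one]
            have b4 := add_le_add b1 b2
            rw [← mul_add, ← mul_add] at b4
            exact b4
          have b0 : 0 ≤ L (2 * G) * (Awq q w (2 * G) t + √(Wt w (2 * G) t)) *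
              √(Wt w (2 * G) t) + (if G = 0 then 0 else L (2 * G - 1) * Awq q w (2 * G) t *
              w (2 * G - 1) t) := by
            have d1 := hL (2 * G - 1)
            have d2 := hwt (2 * G - 1)
            split_ifs <;> positivity
          have b4 := absN (N₂ := N₂) hκ hκ1 hN₂0 (by norm_num) b0 b3
          calc _ ≤ _ := b4
            _ = _ := by ring
        have hsum := add_le_add (add_le_add (add_le_add p1.le p2) p3) p4
        calc D ≤ _ := h2
          _ ≤ 2 * (κ ^ (2 * G) * vG) * _ := mul_le_mul_of_nonneg_left hsum (by positivity)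
          _ = _ := by ring
    · -- dY0
      intro t ht
      obtain ⟨D, h1, h2⟩ := hS.dY0 t ht
      refine ⟨D, ?_, h2⟩
      have e : Yk κ (rs κ x) (rs κ w) 0 = Yt x w 0 := by
        funext τ
        rw [hY0]
        simp
      rw [e]
      exact h1
    · -- dY
      intro n t ht
      obtain ⟨D, h1, h2⟩ := hS.dY n t ht
      have hn : 0 < κ ^ n := pow_pos hκ n
      have hp : 0 < κ ^ (2 * (n + 1)) := pow_pos hκ _
      refine ⟨D / κ ^ (2 * (n + 1)), ?_, ?_⟩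
      · have h3 := h1.div_const (κ ^ (2 * (n + 1)))
        have e : Yk κ (rs κ x) (rs κ w) (n + 1) =
            fun τ => Yt x w (n + 1) τ / κ ^ (2 * (n + 1)) := by
          funext τ
          exact hY0 _ _
        rw [e]
        exact h3
      · rw [div_le_iff₀ hp, Ut_eq hκ, Uw_eq hκ]
        rw [sqY hκ x w (n + 1) t, sqW hκ w (n + 1) t, hN7] at h2
        have ey : Yt x w (n + 1) t = κ ^ (2 * (n + 1)) * Yk κ (rs κ x) (rs κ w) (n + 1) t := by
          rw [hY0]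
          field_simp
        rw [ey] at h2
        have y0 : 0 ≤ Yk κ (rs κ x) (rs κ w) (n + 1) t := by
          unfold Yk
          exact tsum_nonneg fun k => by positivity
        have s0 : 0 ≤ √(Yk κ (rs κ x) (rs κ w) (n + 1) t) := Real.sqrt_nonneg _
        have s1 : 0 ≤ √(Wk κ (rs κ w) (n + 1) t) := Real.sqrt_nonneg _
        have hUt0 : 0 ≤ Ut L x (n + 1) t :=
          Finset.sum_nonneg fun p _ => mul_nonneg (hL p).le (abs_nonneg _)
        set y := Yk κ (rs κ x) (rs κ w) (n + 1) t with hy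
        set sY := √y with hsY
        set sW := √(Wk κ (rs κ w) (n + 1) t) with hsW
        have hLn := hL n
        have hLn1 := hL (n + 1)
        have hNN : 10 * N0 ≤ N0 * lam ^ 3 := by
          have := absorb10 (A := 1) (B := 1) hκl hlam0.le hN00 zero_le_one (by simpa using hk3)
          simpa using this
        have hNκ : 10 * N0 ≤ N0 * lam ^ 3 * κ :=
          absorb10 (A := 1) (B := κ) hκl hlam0.le hN00 zero_le_one (by simpa using hk3') |>.trans'
            (by simp)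
        -- first term
        have p1 : 2 * (C n * L n * x n t ^ 2 + 10 * N0 * loc L x w (n + 1) t) *
            (κ ^ (n + 1) * sY) ≤
            2 * (C n / κ * (κ ^ n * L n) * rs κ x n t ^ 2 + N0 * lam ^ 3 *
              loc (fun n => κ ^ n * L n) (rs κ x) (rs κ w) (n + 1) t) * sY *
              κ ^ (2 * (n + 1)) := by
          have b1 := absorb10 hκl hlam0.le hN00 (hloc0 (n + 1) t ht) (hlocle (n + 1) t ht)
          have b2 : C n * L n * x n t ^ 2 * κ ^ (n + 1) =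
              C n / κ * (κ ^ n * L n) * rs κ x n t ^ 2 * κ ^ (2 * (n + 1)) := by
            rw [hrs x n t]
            field_simp
            ring
          have b3 : 10 * N0 * loc L x w (n + 1) t * (κ ^ (n + 1) * sY) ≤
              N0 * lam ^ 3 * (κ ^ (n + 1) *
                loc (fun n => κ ^ n * L n) (rs κ x) (rs κ w) (n + 1) t) *
                (κ ^ (n + 1) * sY) :=
            mul_le_mul_of_nonneg_right b1 (by positivity)
          calc 2 * (C n * L n * x n t ^ 2 + 10 * N0 * loc L x w (n + 1) t) *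
                (κ ^ (n + 1) * sY)
              = 2 * (C n * L n * x n t ^ 2 * κ ^ (n + 1)) * sY +
                2 * (10 * N0 * loc L x w (n + 1) t * (κ ^ (n + 1) * sY)) := by ring
            _ ≤ 2 * (C n * L n * x n t ^ 2 * κ ^ (n + 1)) * sY +
                2 * (N0 * lam ^ 3 * (κ ^ (n + 1) *
                loc (fun n => κ ^ n * L n) (rs κ x) (rs κ w) (n + 1) t) *
                (κ ^ (n + 1) * sY)) := by linarith
            _ = _ := by
                rw [b2]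
                ring
        -- second term
        have p2 : 2 * (1001 / 1000 * Ut L x (n + 1) t + 10 * N0 * Uw L w (n + 1) t -
            ℓ (n + 1)) * (κ ^ (2 * (n + 1)) * y) ≤
            2 * (1001 / 1000 * Ut L x (n + 1) t + N0 * lam ^ 3 * Uw L w (n + 1) t -
            ℓ (n + 1)) * y * κ ^ (2 * (n + 1)) := by
          have c1 : 10 * N0 * Uw L w (n + 1) t ≤ N0 * lam ^ 3 * Uw L w (n + 1) t :=
            mul_le_mul_of_nonneg_right hNN (hUw0 (n + 1) t ht)
          have c3 : 0 ≤ κ ^ (2 * (n + 1)) * y := by positivity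
          have c4 := mul_le_mul_of_nonneg_right (sub_le_sub_right (add_le_add
            (le_refl (1001 / 1000 * Ut L x (n + 1) t)) c1) (ℓ (n + 1))) c3
          linarith
        -- third term
        have p3 : 2 * (10 * N0) * (Ut L x (n + 1) t + κ ^ (n + 1) * L (n + 1)) *
            (κ ^ (n + 1) * sY * (κ ^ (n + 1) * sW)) ≤
            2 * (N0 * lam ^ 3) * (Ut L x (n + 1) t + κ ^ (n + 1) * L (n + 1)) * (sY * sW) *
            κ ^ (2 * (n + 1)) := by
          have c3 : 0 ≤ 2 * (Ut L x (n + 1) t + κ ^ (n + 1) * L (n + 1)) *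
            (κ ^ (n + 1) * sY * (κ ^ (n + 1) * sW)) := by positivity
          have c4 := mul_le_mul_of_nonneg_right hNN c3
          have e5 : κ ^ (2 * (n + 1)) = κ ^ (n + 1) * κ ^ (n + 1) := by ring
          rw [e5]
          linarith
        -- fourth term
        have p4 : 2 * (10 * N0) * (L n * Aq q x w (n + 1) t * (|x n t| + w n t)) *
            (κ ^ (n + 1) * sW) ≤
            2 * (N0 * lam ^ 3) * (κ ^ n * L n * At μ (rs κ x) (rs κ w) (n + 1) t *
              (|rs κ x n t| + rs κ w n t)) * sW * κ ^ (2 * (n + 1)) := by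
          have d1 : Aq q x w (n + 1) t ≤ κ ^ n * At μ (rs κ x) (rs κ w) (n + 1) t := by
            have := hA (n + 1) t ht
            rw [pow_succ, mul_comm (κ ^ n) κ, mul_assoc] at this
            exact le_of_mul_le_mul_left this hκ
          have e1 : |x n t| + w n t = κ ^ n * (|rs κ x n t| + rs κ w n t) := rs_add hκ n
          have v0 : 0 ≤ |rs κ x n t| + rs κ w n t := add_nonneg (abs_nonneg _) (hw0 n t ht)
          have a0 := hAt0 (n + 1) t ht
          rw [e1]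
          calc 2 * (10 * N0) * (L n * Aq q x w (n + 1) t *
                (κ ^ n * (|rs κ x n t| + rs κ w n t))) * (κ ^ (n + 1) * sW)
              ≤ 2 * (10 * N0) * (L n * (κ ^ n * At μ (rs κ x) (rs κ w) (n + 1) t) *
                (κ ^ n * (|rs κ x n t| + rs κ w n t))) * (κ ^ (n + 1) * sW) := by gcongr
            _ = 10 * N0 * (2 * (L n * (κ ^ n * At μ (rs κ x) (rs κ w) (n + 1) t) *
                (κ ^ n * (|rs κ x n t| + rs κ w n t))) * (κ ^ (n + 1) * sW)) := by ring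
            _ ≤ N0 * lam ^ 3 * κ * (2 * (L n * (κ ^ n * At μ (rs κ x) (rs κ w) (n + 1) t) *
                (κ ^ n * (|rs κ x n t| + rs κ w n t))) * (κ ^ (n + 1) * sW)) :=
                mul_le_mul_of_nonneg_right hNκ (by positivity)
            _ = _ := by ring
        -- fifth term
        have p5 : 2 * (if n % 2 = 0 then Q * (κ ^ n * L n) * (w n t * w (n + 1) t) else 0) ≤
            2 * (if n % 2 = 0 then Q * (N0 * lam ^ 3) * (κ ^ n * L n) *
              (rs κ w n t * rs κ w (n + 1) t) else 0) * κ ^ (2 * (n + 1)) := by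
          split_ifs
          · rw [hrs w n t, hrs w (n + 1) t]
            have g0 := hw0 n t ht
            have g1 := hw0 (n + 1) t ht
            have g2 : 1 ≤ N0 * lam ^ 3 * κ := le_trans (by linarith) hNκ
            have g3 : 0 ≤ 2 * (Q * (κ ^ n * L n) * (κ ^ n * rs κ w n t *
              (κ ^ (n + 1) * rs κ w (n + 1) t))) := by positivity
            calc 2 * (Q * (κ ^ n * L n) * (κ ^ n * rs κ w n t *
                  (κ ^ (n + 1) * rs κ w (n + 1) t)))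
                ≤ N0 * lam ^ 3 * κ * (2 * (Q * (κ ^ n * L n) * (κ ^ n * rs κ w n t *
                  (κ ^ (n + 1) * rs κ w (n + 1) t)))) := le_mul_of_one_le_left g3 g2
              _ = _ := by ring
          · simp
        calc D ≤ _ := h2
          _ ≤ _ := add_le_add (add_le_add (add_le_add (add_le_add p1 p2) p3) p4) p5
          _ = _ := by ring
    · -- en
      intro t ht
      rw [hY0]
      simpa using hS.en t ht
    · show x 0 0 / κ ^ 0 = A0
      rw [hS.x0]; simp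
    · intro n
      show x (n + 1) 0 / κ ^ (n + 1) = 0
      rw [hS.xs]; simp
    · intro n
      show w n 0 / κ ^ n = 0
      rw [hS.ws]; simp
    · -- growth
      intro hG n
      obtain ⟨t, ht, a, h1, h2, h3, h4, h5⟩ := hG n
      have hn : 0 < κ ^ n := pow_pos hκ n
      have ha : 0 ≤ a := le_trans (by positivity) h1
      have hpw : ∀ i ≤ n, κ ^ i * (1000 / 9) ^ (n - i) = (1000 / (9 * κ)) ^ (n - i) * κ ^ n := by
        intro i hi
        obtain ⟨k, rfl⟩ : ∃ k, n = i + k := ⟨n - i, by omega⟩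
        rw [Nat.add_sub_cancel_left, ← div_div, div_pow (1000 / 9) κ k, pow_add]
        field_simp
      refine ⟨t, ht, κ ^ n * a, ?_, ?_, ?_, ?_, ?_⟩
      · rw [mul_pow, mul_comm]
        exact mul_le_mul_of_nonneg_left h1 hn.le
      · rw [hrs x n t]
        have := mul_le_mul_of_nonneg_left h2 hn.le
        linarith
      · intro i hi
        have h6 := h3 i hi
        rw [abs_rs hκ, div_le_iff₀ (pow_pos hκ i)] at h6
        calc |x i t| ≤ 200 * (1000 / 9) ^ (n - i) * a * κ ^ i := h6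
          _ = 200 * a * (κ ^ i * (1000 / 9) ^ (n - i)) := by ring
          _ = _ := by rw [hpw i hi.le]; ring
      · intro i hi
        have h6 := h4 i hi
        have h7 := mul_le_mul_of_nonneg_left h6 (pow_pos hκ i).le
        rw [← hrs w i t] at h7
        calc w i t ≤ κ ^ i * (Real.exp (-(μ / 10)) * (1000 / 9) ^ (n - i) * a) := h7
          _ = Real.exp (-(μ / 10)) * a * (κ ^ i * (1000 / 9) ^ (n - i)) := by ring
          _ = _ := by rw [hpw i hi]; ring
      · intro k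
        rw [sqY hκ]
        have h6 := h5 k
        have h7 : κ ^ (n + 1 + k) ≤ κ ^ n := pow_le_pow_of_le_one hκ.le hκ1 (by omega)
        calc κ ^ (n + 1 + k) * √(Yk κ (rs κ x) (rs κ w) (n + 1 + k) t) ≤
            κ ^ n * (Real.exp (-(μ / 250 * (k + 1))) * a) :=
              mul_le_mul h7 h6 (Real.sqrt_nonneg _) hn.le
          _ = _ := by ring

end Pool.Agent.Y941.SK
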